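import Pool.Agent.Lib.TG_h96.Abh

/-!
# TANK G, chain lemma: ranks
-/

set_option autoImplicit false

namespace Pool.Agent.TGCh

open Pool.Agent.TG AlgebraicIndependent

universe u

section Rk

variable (k₁ : Type u) {K : Type u} [Field k₁] [Field K] [Algebra k₁ K]

/-- The transcendence degree of `k₁(X)` over `k₁`. -/
noncomputable def rk (X : Set K) : ℕ∞ := (matroid k₁ K).eRk X

/-- The elements which are algebraic over `k₁(X)`. -/
def cl (X : Set K) : Set K := (matroid k₁ K).closure X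

variable {k₁} {X Y : Set K} {a b : K}

theorem mem_cl_iff : a ∈ cl k₁ X ↔ IsAlgebraic (Algebra.adjoin k₁ X) a := by
  rw [cl, matroid_closure_eq]
  rfl

theorem cl_eq (X : Set K) :
    cl k₁ X = (Subalgebra.algebraicClosure (Algebra.adjoin k₁ X) K : Set K) := by
  rw [cl, matroid_closure_eq]

theorem subset_cl (X : Set K) : X ⊆ cl k₁ X :=
  (matroid k₁ K).subset_closure X (Set.subset_univ _)

theorem cl_mono (h : X ⊆ Y) : cl k₁ X ⊆ cl k₁ Y := (matroid k₁ K).closure_subset_closure h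

theorem cl_cl (X : Set K) : cl k₁ (cl k₁ X) = cl k₁ X := (matroid k₁ K).closure_closure X

theorem cl_subset (h : X ⊆ cl k₁ Y) : cl k₁ X ⊆ cl k₁ Y := by
  rw [← cl_cl Y]
  exact cl_mono h

theorem rk_cl (X : Set K) : rk k₁ (cl k₁ X) = rk k₁ X := (matroid k₁ K).eRk_closure_eq X

theorem rk_mono (h : X ⊆ Y) : rk k₁ X ≤ rk k₁ Y := (matroid k₁ K).eRk_mono h

theorem rk_le_of_subset_cl (h : X ⊆ cl k₁ Y) : rk k₁ X ≤ rk k₁ Y := by
  rw [← rk_cl Y]
  exact rk_mono h

theorem rk_union_le (X Y : Set K) : rk k₁ (X ∪ Y) ≤ rk k₁ X + rk k₁ Y :=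
  (matroid k₁ K).eRk_union_le_eRk_add_eRk X Y

theorem rk_union_le' (X Y : Set K) : rk k₁ (X ∪ Y) ≤ rk k₁ X + Y.encard :=
  (matroid k₁ K).eRk_union_le_eRk_add_encard X Y

theorem rk_le_encard (X : Set K) : rk k₁ X ≤ X.encard := (matroid k₁ K).eRk_le_encard X

theorem add_mem_cl (ha : a ∈ cl k₁ X) (hb : b ∈ cl k₁ X) : a + b ∈ cl k₁ X := by
  rw [cl_eq] at *
  exact (Subalgebra.algebraicClosure (Algebra.adjoin k₁ X) K).add_mem ha hb

theorem mul_mem_cl (ha : a ∈ cl k₁ X) (hb : b ∈ cl k₁ X) : a * b ∈ cl k₁ X := by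
  rw [cl_eq] at *
  exact (Subalgebra.algebraicClosure (Algebra.adjoin k₁ X) K).mul_mem ha hb

theorem neg_mem_cl (ha : a ∈ cl k₁ X) : -a ∈ cl k₁ X := by
  rw [cl_eq] at *
  exact (Subalgebra.algebraicClosure (Algebra.adjoin k₁ X) K).neg_mem ha

theorem sub_mem_cl (ha : a ∈ cl k₁ X) (hb : b ∈ cl k₁ X) : a - b ∈ cl k₁ X := by
  rw [sub_eq_add_neg]
  exact add_mem_cl ha (neg_mem_cl hb)

theorem inv_mem_cl (ha : a ∈ cl k₁ X) : a⁻¹ ∈ cl k₁ X := by
  rw [mem_cl_iff] at *
  exact ha.inv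

theorem div_mem_cl (ha : a ∈ cl k₁ X) (hb : b ∈ cl k₁ X) : a / b ∈ cl k₁ X := by
  rw [div_eq_mul_inv]
  exact mul_mem_cl ha (inv_mem_cl hb)

theorem zero_mem_cl : (0 : K) ∈ cl k₁ X := by
  rw [cl_eq]
  exact (Subalgebra.algebraicClosure (Algebra.adjoin k₁ X) K).zero_mem

theorem sum_mem_cl {ι : Type*} (s : Finset ι) (f : ι → K) (h : ∀ i ∈ s, f i ∈ cl k₁ X) :
    ∑ i ∈ s, f i ∈ cl k₁ X := by
  classical
  induction s using Finset.induction_on with
  | empty => rw [Finset.sum_empty]; exact zero_mem_cl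
  | insert i s hi ih =>
    rw [Finset.sum_insert hi]
    exact add_mem_cl (h i (Finset.mem_insert_self _ _))
      (ih fun j hj => h j (Finset.mem_insert_of_mem hj))

/-- The rank of an algebraically independent family. -/
theorem card_le_rk {ι : Type*} {x : ι → K} (hx : AlgebraicIndependent k₁ x)
    (h : ∀ i, x i ∈ X) : ENat.card ι ≤ rk k₁ X := by
  have h1 : (matroid k₁ K).Indep (Set.range x) := hx.to_subtype_range
  refine hx.injective.encard_range.trans ?_
  refine h1.encard_le_eRk_of_subset ?_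
  rintro _ ⟨i, rfl⟩
  exact h i

end Rk

variable {k₁ k K : Type u} [Field k₁] [Field k] [Field K] [Algebra k₁ k] [Algebra k K]
  [Algebra k₁ K] [IsScalarTower k₁ k K] {V : ValuationSubring K}

/-- INEQUALITY OF ABHYANKAR in the form needed for the chain lemma. -/
theorem rk_residues (hV : Ov k V) {C X : Set K} (hC : ∀ a ∈ C, a ∈ (algebraMap k K).range)
    {ι : Type*} {y : ι → K} {c : ι → k}
    (hy : ∀ i, V.valuation (y i - algebraMap k K (c i)) < 1) (hycl : ∀ i, y i ∈ cl k₁ (C ∪ X)) :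
    rk k₁ (C ∪ Set.range fun i => algebraMap k K (c i)) ≤ rk k₁ C + X.encard ∧
    ∀ z ∈ cl k₁ (C ∪ X), z ≠ 0 → V.valuation z < 1 →
      rk k₁ (C ∪ Set.range fun i => algebraMap k K (c i)) + 1 ≤ rk k₁ C + X.encard := by
  classical
  set M := matroid k₁ K with hM
  set D : Set K := Set.range fun i => algebraMap k K (c i) with hD
  obtain ⟨I, hI⟩ := M.exists_isBasis C (Set.subset_univ _)
  obtain ⟨J, hJ, hIJ⟩ := hI.indep.subset_isBasis_of_subset
    (hI.subset.trans (Set.subset_union_left (s := C) (t := D))) (Set.subset_univ _)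
  have hJC : I = J ∩ C := hI.eq_of_subset_indep (hJ.indep.subset Set.inter_subset_left)
    (Set.subset_inter hIJ hI.subset) Set.inter_subset_right
  have hJD : ∀ j : (J \ I : Set K), ∃ i, algebraMap k K (c i) = (j : K) := by
    rintro ⟨j, hjJ, hjI⟩
    rcases hJ.subset hjJ with h | h
    · exact absurd (hJC ▸ ⟨hjJ, h⟩ : j ∈ I) hjI
    · exact h
  choose idx hidx using hJD
  have hind : AlgebraicIndependent k₁ (Sum.elim (fun j : (J \ I : Set K) =>
      algebraMap k K (c (idx j))) (fun i : I => (i : K))) := by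
    have h1 : AlgebraicIndependent k₁ (fun j : J => (j : K)) := hJ.indep
    let f : (J \ I : Set K) ⊕ I → J := Sum.elim (fun j => ⟨j, j.2.1⟩) (fun i => ⟨i, hIJ i.2⟩)
    have hf : Function.Injective f := by
      rintro (⟨a, ha⟩ | ⟨a, ha⟩) (⟨b, hb⟩ | ⟨b, hb⟩) hab
      · have : a = b := congrArg Subtype.val hab
        subst this; rfl
      · have : a = b := congrArg Subtype.val hab
        subst this; exact absurd hb ha.2
      · have : a = b := congrArg Subtype.val hab
        subst this; exact absurd ha hb.2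
      · have : a = b := congrArg Subtype.val hab
        subst this; rfl
    have h2 := h1.comp f hf
    refine Eq.subst (motive := fun g => AlgebraicIndependent k₁ g) ?_ h2
    funext j
    rcases j with j | j
    · exact (hidx j).symm
    · rfl
  have hIr : ∀ i : I, (i : K) ∈ (algebraMap k K).range := fun i => hC _ (hI.subset i.2)
  obtain ⟨h1, h2⟩ := joint hV hIr (fun j => hy (idx j)) hind
  have hJcard : rk k₁ (C ∪ D) = J.encard := hJ.encard_eq_eRk.symm
  have hIcard : rk k₁ C = I.encard := hI.encard_eq_eRk.symm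
  have hsum : J.encard = ENat.card (J \ I : Set K) + ENat.card I := by
    have h3 : (J \ I).encard + I.encard = J.encard := Set.encard_sdiff_add_encard_of_subset hIJ
    rw [← h3]
    rfl
  have hIcl : ∀ i : I, (i : K) ∈ cl k₁ (C ∪ X) := fun i =>
    subset_cl _ (Or.inl (hI.subset i.2))
  have hle : rk k₁ (cl k₁ (C ∪ X)) ≤ rk k₁ C + X.encard := by
    rw [rk_cl]
    exact rk_union_le' C X
  refine ⟨?_, fun z hz hz0 hz1 => ?_⟩
  · rw [hJcard, hsum, ← ENat.card_sum]
    refine le_trans (card_le_rk h1 ?_) hle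
    rintro (j | i)
    · exact hycl _
    · exact hIcl i
  · have h3 : ENat.card (Option (J \ I : Set K) ⊕ I) ≤ rk k₁ (cl k₁ (C ∪ X)) := by
      refine card_le_rk (h2 z hz0 hz1) ?_
      rintro ((_ | j) | i)
      · exact hz
      · exact hycl _
      · exact hIcl i
    have h4 : ENat.card (Option (J \ I : Set K) ⊕ I) = J.encard + 1 := by
      rw [ENat.card_sum, ENat.card_congr (Equiv.optionEquivSumPUnit.{0} _), ENat.card_sum, hsum]
      have h5 : ENat.card PUnit.{1} = 1 := by simp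
      rw [h5, add_assoc, add_assoc, add_comm (1 : ℕ∞)]
    rw [hJcard, ← h4]
    exact h3.trans hle

end Pool.Agent.TGCh
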