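import Pool.Agent.Lib.TG.Centre
import Mathlib.RingTheory.AlgebraicIndependent.TranscendenceBasis
import Mathlib.Combinatorics.Matroid.Rank.ENat

/-!
# TANK G, chain lemma: the inequality of Abhyankar in the algebraic matroid
-/

set_option autoImplicit false

namespace Pool.Agent.TGCh

open Pool.Agent.TG

universe u

section Unit

variable {R K : Type*} [CommRing R] [Field K] [Algebra R K] {V : ValuationSubring K}

/-- An element of value strictly between `0` and `1` is transcendental over every ring all of
whose nonzero elements have value `1`. -/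
theorem transcendental_of_units (hR : ∀ r : R, algebraMap R K r ≠ 0 →
    V.valuation (algebraMap R K r) = 1) (hinj : Function.Injective (algebraMap R K))
    {x : K} (h0 : x ≠ 0) (h1 : V.valuation x < 1) : Transcendental R x := by
  rw [transcendental_iff]
  intro p hp
  by_contra hp0
  set j := p.natTrailingDegree with hj
  have hc : p.coeff j ≠ 0 := by
    have := Polynomial.trailingCoeff_nonzero_iff_nonzero.2 hp0
    exact this
  have hcK : algebraMap R K (p.coeff j) ≠ 0 := by
    rwa [Ne, map_eq_zero_iff _ hinj]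
  have hle : ∀ i, V.valuation (algebraMap R K (p.coeff i)) ≤ 1 := by
    intro i
    by_cases hi : algebraMap R K (p.coeff i) = 0
    · rw [hi, map_zero]
      exact zero_le
    · exact (hR _ hi).le
  have hx0 : V.valuation x ≠ 0 := (Valuation.ne_zero_iff _).2 h0
  have hsum : Polynomial.aeval x p = algebraMap R K (p.coeff j) * x ^ j +
      ∑ i ∈ (Finset.range (p.natDegree + 1)).filter (fun i => j < i),
        algebraMap R K (p.coeff i) * x ^ i := by
    rw [Polynomial.aeval_eq_sum_range]
    have hjm : j ∈ Finset.range (p.natDegree + 1) := by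
      rw [Finset.mem_range]
      exact Nat.lt_succ_of_le (Polynomial.natTrailingDegree_le_natDegree p)
    rw [← Finset.add_sum_erase _ _ hjm, Algebra.smul_def]
    congr 1
    rw [← Finset.sum_filter_add_sum_filter_not ((Finset.range (p.natDegree + 1)).erase j)
      (fun i => j < i)]
    have h2 : ∑ i ∈ ((Finset.range (p.natDegree + 1)).erase j).filter (fun i => ¬ j < i),
        p.coeff i • x ^ i = 0 := by
      refine Finset.sum_eq_zero fun i hi => ?_
      rw [Finset.mem_filter, Finset.mem_erase] at hi
      have hij : i < j := lt_of_le_of_ne (not_lt.1 hi.2) hi.1.1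
      rw [Polynomial.coeff_eq_zero_of_lt_natTrailingDegree hij, zero_smul]
    rw [h2, add_zero]
    refine Finset.sum_congr ?_ fun i _ => Algebra.smul_def _ _
    ext i
    simp only [Finset.mem_filter, Finset.mem_erase]
    constructor
    · rintro ⟨⟨_, h3⟩, h4⟩
      exact ⟨h3, h4⟩
    · rintro ⟨h3, h4⟩
      exact ⟨⟨h4.ne', h3⟩, h4⟩
  have hlt : V.valuation (∑ i ∈ (Finset.range (p.natDegree + 1)).filter (fun i => j < i),
        algebraMap R K (p.coeff i) * x ^ i) < V.valuation (x ^ j) := by
    refine Valuation.map_sum_lt _ ?_ fun i hi => ?_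
    · rw [map_pow]
      exact pow_ne_zero _ hx0
    · rw [Finset.mem_filter] at hi
      rw [map_mul]
      refine lt_of_le_of_lt (mul_le_of_le_one_left zero_le (hle i)) ?_
      rw [map_pow, map_pow]
      exact pow_lt_pow_right_of_lt_one₀ (zero_lt_iff.2 hx0) h1 hi.2
  have heq : V.valuation (Polynomial.aeval x p) = V.valuation (x ^ j) := by
    rw [hsum, Valuation.map_add_eq_of_lt_left]
    · rw [map_mul, hR _ hcK, one_mul]
    · rw [map_mul, hR _ hcK, one_mul]
      exact hlt
  rw [hp, map_zero] at heq
  exact (Valuation.ne_zero_iff _).2 (pow_ne_zero j h0) heq.symm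

end Unit

variable {k₁ k K : Type u} [Field k₁] [Field k] [Field K] [Algebra k₁ k] [Algebra k K]
  [Algebra k₁ K] [IsScalarTower k₁ k K] {V : ValuationSubring K}

omit [Algebra k₁ k] [IsScalarTower k₁ k K] in
/-- Reduction of a polynomial expression. -/
theorem val_aeval_sub (hV : Ov k V) {R : Subalgebra k₁ K}
    (hR : ∀ r ∈ R, r ∈ (algebraMap k K).range) {ι : Type*} {y : ι → K} {c : ι → k}
    (hy : ∀ i, V.valuation (y i - algebraMap k K (c i)) < 1) (Q : MvPolynomial ι R) :
    V.valuation (MvPolynomial.aeval y Q - MvPolynomial.aeval (fun i => algebraMap k K (c i)) Q) < 1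
      ∧ MvPolynomial.aeval y Q ∈ V ∧ MvPolynomial.aeval (fun i => algebraMap k K (c i)) Q ∈
        (algebraMap k K).range := by
  have hyV : ∀ i, y i ∈ V := by
    intro i
    have : y i = (y i - algebraMap k K (c i)) + algebraMap k K (c i) := by ring
    rw [this]
    exact V.add_mem _ _ ((V.valuation_le_one_iff _).1 (hy i).le) (hV _)
  have hrange : ∀ r ∈ (algebraMap k K).range, r ∈ V := by
    rintro _ ⟨c, rfl⟩
    exact hV c
  induction Q using MvPolynomial.induction_on with
  | C a =>
    simp only [MvPolynomial.algHom_C]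
    refine ⟨by simp, ?_, ?_⟩
    · exact hrange _ (hR _ a.2)
    · exact hR _ a.2
  | add p q hp hq =>
    simp only [map_add]
    refine ⟨?_, V.add_mem _ _ hp.2.1 hq.2.1, Subring.add_mem _ hp.2.2 hq.2.2⟩
    have h1 : MvPolynomial.aeval y p + MvPolynomial.aeval y q -
        (MvPolynomial.aeval (fun i => algebraMap k K (c i)) p +
          MvPolynomial.aeval (fun i => algebraMap k K (c i)) q) =
        (MvPolynomial.aeval y p - MvPolynomial.aeval (fun i => algebraMap k K (c i)) p) +
        (MvPolynomial.aeval y q - MvPolynomial.aeval (fun i => algebraMap k K (c i)) q) := by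
      ring
    rw [h1]
    exact Valuation.map_add_lt _ hp.1 hq.1
  | mul_X p i hp =>
    simp only [map_mul, MvPolynomial.aeval_X]
    refine ⟨?_, V.mul_mem _ _ hp.2.1 (hyV i), Subring.mul_mem _ hp.2.2 ⟨c i, rfl⟩⟩
    have h1 : MvPolynomial.aeval y p * y i -
        MvPolynomial.aeval (fun i => algebraMap k K (c i)) p * algebraMap k K (c i) =
        (MvPolynomial.aeval y p - MvPolynomial.aeval (fun i => algebraMap k K (c i)) p) * y i +
        MvPolynomial.aeval (fun i => algebraMap k K (c i)) p * (y i - algebraMap k K (c i)) := by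
      ring
    rw [h1]
    refine Valuation.map_add_lt _ ?_ ?_
    · rw [map_mul]
      exact mul_lt_one_of_lt_of_le hp.1 ((V.valuation_le_one_iff _).2 (hyV i))
    · rw [map_mul, mul_comm]
      exact mul_lt_one_of_lt_of_le (hy i) ((V.valuation_le_one_iff _).2 (hrange _ hp.2.2))

omit [Algebra k₁ k] [IsScalarTower k₁ k K] in
/-- Lifts of algebraically independent residues are algebraically independent, and nonzero
polynomials in them have value `1`. -/
theorem lift_indep (hV : Ov k V) {R : Subalgebra k₁ K}
    (hR : ∀ r ∈ R, r ∈ (algebraMap k K).range) {ι : Type*} {y : ι → K} {c : ι → k}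
    (hy : ∀ i, V.valuation (y i - algebraMap k K (c i)) < 1)
    (hc : AlgebraicIndependent R (fun i => algebraMap k K (c i))) :
    AlgebraicIndependent R y ∧
      ∀ r : Algebra.adjoin R (Set.range y), (r : K) ≠ 0 → V.valuation (r : K) = 1 := by
  have key : ∀ Q : MvPolynomial ι R, Q ≠ 0 → V.valuation (MvPolynomial.aeval y Q) = 1 := by
    intro Q hQ
    obtain ⟨h1, h2, ⟨a, ha⟩⟩ := val_aeval_sub hV hR hy Q
    have h3 : MvPolynomial.aeval (fun i => algebraMap k K (c i)) Q ≠ 0 := by
      intro h
      exact hQ (hc (by rw [h, map_zero]))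
    have h4 : V.valuation (MvPolynomial.aeval (fun i => algebraMap k K (c i)) Q) = 1 := by
      rw [← ha] at h3 ⊢
      have hinv : (algebraMap k K a)⁻¹ ∈ V := by
        rw [← map_inv₀]
        exact hV _
      exact val_eq_one_of_mem_inv h3 (hV a) hinv
    have h5 : MvPolynomial.aeval y Q = MvPolynomial.aeval (fun i => algebraMap k K (c i)) Q +
        (MvPolynomial.aeval y Q - MvPolynomial.aeval (fun i => algebraMap k K (c i)) Q) := by
      ring
    rw [h5, Valuation.map_add_eq_of_lt_left _ (by rw [h4]; exact h1), h4]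
  refine ⟨?_, ?_⟩
  · rw [algebraicIndependent_iff]
    intro Q hQ
    by_contra hQ0
    have := key Q hQ0
    rw [hQ, map_zero] at this
    exact zero_ne_one this
  · rintro ⟨r, hr⟩ hr0
    rw [Algebra.adjoin_range_eq_range_aeval] at hr
    obtain ⟨Q, rfl⟩ := hr
    refine key Q ?_
    rintro rfl
    exact hr0 (map_zero _)

theorem adjoin_le_range {α : Type*} {x : α → K} (hx : ∀ a, x a ∈ (algebraMap k K).range) :
    ∀ r ∈ Algebra.adjoin k₁ (Set.range x), r ∈ (algebraMap k K).range := by
  intro r hr
  have h1 : Algebra.adjoin k₁ (Set.range x) ≤ (IsScalarTower.toAlgHom k₁ k K).range := by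
    refine Algebra.adjoin_le ?_
    rintro _ ⟨a, rfl⟩
    obtain ⟨c, hc⟩ := hx a
    exact ⟨c, hc⟩
  obtain ⟨c, hc⟩ := h1 hr
  exact ⟨c, hc⟩

/-- Constants together with lifts of independent residues. -/
theorem joint (hV : Ov k V) {α ι : Type*} {x : α → K}
    (hx : ∀ a, x a ∈ (algebraMap k K).range) {y : ι → K} {c : ι → k}
    (hy : ∀ i, V.valuation (y i - algebraMap k K (c i)) < 1)
    (h : AlgebraicIndependent k₁ (Sum.elim (fun i => algebraMap k K (c i)) x)) :
    AlgebraicIndependent k₁ (Sum.elim y x) ∧ ∀ z : K, z ≠ 0 → V.valuation z < 1 →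
      AlgebraicIndependent k₁ (Sum.elim (fun o : Option ι => o.elim z y) x) := by
  rw [AlgebraicIndependent.sumElim_iff] at h
  obtain ⟨h1, h2⟩ := h
  obtain ⟨h3, h4⟩ := lift_indep hV (adjoin_le_range (k₁ := k₁) hx) hy h2
  refine ⟨AlgebraicIndependent.sumElim_iff.2 ⟨h1, h3⟩, fun z hz0 hz1 =>
    AlgebraicIndependent.sumElim_iff.2 ⟨h1, ?_⟩⟩
  rw [h3.option_iff_transcendental]
  exact transcendental_of_units h4 Subtype.val_injective hz0 hz1

end Pool.Agent.TGCh
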