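import Pool.Agent.Lib.TG_h96.Rank

/-!
# TANK G, chain lemma
-/

set_option autoImplicit false

namespace Pool.Agent.TGCh

open Pool.Agent.TG AlgebraicIndependent

universe u

variable {k₁ k K : Type u} [Field k₁] [Field k] [Field K] [Algebra k₁ k] [Algebra k K]
  [Algebra k₁ K] [IsScalarTower k₁ k K] {V : ValuationSubring K}

/-- The elements whose value is at least the value of `x`. -/
def leV (hV : Ov k V) (x : K) : Submodule k K where
  carrier := {f | V.valuation f ≤ V.valuation x}
  add_mem' := fun {a b} ha hb => by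
    rw [Set.mem_ofPred_eq] at *
    exact (V.valuation.map_add a b).trans (max_le ha hb)
  zero_mem' := by
    rw [Set.mem_ofPred_eq, map_zero]
    exact zero_le
  smul_mem' := by
    intro c y hy
    rw [Set.mem_ofPred_eq] at *
    rw [Algebra.smul_def, map_mul]
    exact (mul_le_of_le_one_left zero_le ((V.valuation_le_one_iff _).2 (hV c))).trans hy

theorem mem_leV {hV : Ov k V} {x f : K} : f ∈ leV hV x ↔ V.valuation f ≤ V.valuation x := by
  rw [← SetLike.mem_coe]
  change f ∈ {f | V.valuation f ≤ V.valuation x} ↔ _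
  rw [Set.mem_ofPred_eq]

theorem val_const' (hV : Ov k V) {c : k} (hc : c ≠ 0) : V.valuation (algebraMap k K c) = 1 := by
  refine val_eq_one_of_mem_inv (by simpa using hc) (hV c) ?_
  rw [← map_inv₀]
  exact hV _

/-- The change of basis in one step of the chain. -/
theorem step_basis (hV : ZDim k V) {m : ℕ} (b : Fin (m + 1) → K) (hb : LinearIndependent k b) :
    ∃ (a₀ : Fin (m + 1)) (c : Fin m → k),
      (∀ a, V.valuation (b a) ≤ V.valuation (b a₀)) ∧ b a₀ ≠ 0 ∧
      (∀ j, V.valuation (b (a₀.succAbove j) / b a₀ - algebraMap k K (c j)) < 1) ∧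
      (∀ j, V.valuation (b (a₀.succAbove j) - c j • b a₀) < V.valuation (b a₀)) ∧
      LinearIndependent k (fun j => b (a₀.succAbove j) - c j • b a₀) := by
  obtain ⟨a₀, -, ha₀⟩ := Finset.exists_max_image Finset.univ (fun a => V.valuation (b a))
    ⟨0, Finset.mem_univ _⟩
  have hb0 : b a₀ ≠ 0 := hb.ne_zero a₀
  have hval0 : V.valuation (b a₀) ≠ 0 := (Valuation.ne_zero_iff _).2 hb0
  have hmem : ∀ a, b a / b a₀ ∈ V := by
    intro a
    rw [← V.valuation_le_one_iff, map_div₀]
    exact div_le_one_of_le₀ (ha₀ a (Finset.mem_univ _)) zero_le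
  choose c hc using fun a => hV.res (b a / b a₀) (hmem a)
  refine ⟨a₀, fun j => c (a₀.succAbove j), fun a => ha₀ a (Finset.mem_univ _), hb0,
    fun j => hc _, fun j => ?_, ?_⟩
  · have h1 : b (a₀.succAbove j) - c (a₀.succAbove j) • b a₀ =
        (b (a₀.succAbove j) / b a₀ - algebraMap k K (c (a₀.succAbove j))) * b a₀ := by
      rw [sub_mul, div_mul_cancel₀ _ hb0, Algebra.smul_def]
    rw [h1, map_mul]
    exact mul_lt_of_lt_one_left (zero_lt_iff.2 hval0) (hc _)
  · rw [Fintype.linearIndependent_iff] at hb ⊢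
    intro g hg
    have h1 : ∑ a : Fin (m + 1), (Fin.insertNth (α := fun _ => k) a₀
        (-∑ j, g j * c (a₀.succAbove j)) g) a • b a = 0 := by
      rw [Fin.sum_univ_succAbove _ a₀]
      simp only [Fin.insertNth_apply_same, Fin.insertNth_apply_succAbove]
      rw [← hg]
      simp only [smul_sub, Finset.sum_sub_distrib, neg_smul, Finset.sum_smul, mul_smul]
      ring
    intro j
    have h2 := hb _ h1 (a₀.succAbove j)
    rwa [Fin.insertNth_apply_succAbove] at h2

/-- The coordinates in the new basis. -/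
theorem step_sum {m : ℕ} (b : Fin (m + 1) → K) (a₀ : Fin (m + 1)) (c : Fin m → k)
    (w : Fin (m + 1) → k) :
    ∑ a, w a • b a = (∑ j, w (a₀.succAbove j) • (b (a₀.succAbove j) - c j • b a₀)) +
      (w a₀ + ∑ j, w (a₀.succAbove j) * c j) • b a₀ := by
  rw [Fin.sum_univ_succAbove _ a₀]
  simp only [smul_sub, Finset.sum_sub_distrib, add_smul, Finset.sum_smul, mul_smul]
  ring

theorem val_sum_lt (hV : Ov k V) {m : ℕ} (b' : Fin m → K) {β : K} (hβ : β ≠ 0)
    (h : ∀ j, V.valuation (b' j) < V.valuation β) (w : Fin m → k) :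
    V.valuation (∑ j, w j • b' j) < V.valuation β := by
  refine Valuation.map_sum_lt _ ((Valuation.ne_zero_iff _).2 hβ) fun j _ => ?_
  rw [Algebra.smul_def, map_mul]
  exact lt_of_le_of_lt (mul_le_of_le_one_left zero_le ((V.valuation_le_one_iff _).2 (hV _)))
    (h j)

theorem coords_eq_range {α β k : Type*} (w : α → β → k) :
    {x | ∃ i a, x = w i a} = Set.range fun p : α × β => w p.1 p.2 := by
  ext x
  rw [Set.mem_ofPred_eq]
  constructor
  · rintro ⟨i, a, rfl⟩
    exact ⟨(i, a), rfl⟩
  · rintro ⟨⟨i, a⟩, rfl⟩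
    exact ⟨i, a, rfl⟩

theorem encard_coords_le {k : Type*} {n m : ℕ} (w : Fin n → Fin m → k) :
    ({x | ∃ i a, x = w i a} : Set k).encard ≤ ((n * m : ℕ) : ℕ∞) := by
  rw [coords_eq_range, ← Set.image_univ]
  refine (Set.encard_image_le _ _).trans ?_
  rw [Set.encard_univ, ENat.card_eq_coe_fintype_card, Fintype.card_prod, Fintype.card_fin,
    Fintype.card_fin]

/-- THE CHAIN LEMMA, inductive form. -/
theorem chain_aux (hV : ZDim k V) {n : ℕ} (hn : 0 < n) {X : Set K} (hX : X.encard ≤ n) :
    ∀ (m d : ℕ) (C : Set k) (b : Fin m → K) (w : Fin n → Fin m → k), C.Finite →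
      (∀ a, b a ∈ cl k₁ (algebraMap k K '' C ∪ X)) →
      (∃ z ∈ cl k₁ (algebraMap k K '' C ∪ X), z ≠ 0 ∧ V.valuation z < 1) →
      LinearIndependent k b →
      ((n * m : ℕ) : ℕ∞) + rk k₁ (algebraMap k K '' C) ≤
        rk k₁ (algebraMap k K '' (C ∪ {x | ∃ i a, x = w i a})) + d →
      ∃ i, m ≤ Module.finrank k
        (Submodule.span k (Set.range b) ⊓ leV hV.ov (∑ a, w i a • b a) : Submodule k K) + d := by
  intro m
  induction m with
  | zero =>
    intro d C b w _ _ _ _ _
    exact ⟨⟨0, hn⟩, Nat.zero_le _⟩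
  | succ m ih =>
    intro d C b w hC hb hz hlin hrk
    obtain ⟨a₀, c, hmax, hb0, hc, hlt, hlin'⟩ := step_basis hV b hlin
    set b' : Fin m → K := fun j => b (a₀.succAbove j) - c j • b a₀ with hb'
    have hspanle : Submodule.span k (Set.range b') ≤ Submodule.span k (Set.range b) := by
      rw [Submodule.span_le]
      rintro _ ⟨j, rfl⟩
      exact Submodule.sub_mem _ (Submodule.subset_span ⟨_, rfl⟩)
        (Submodule.smul_mem _ _ (Submodule.subset_span ⟨_, rfl⟩))
    have : FiniteDimensional k (Submodule.span k (Set.range b)) :=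
      FiniteDimensional.span_of_finite k (Set.finite_range b)
    by_cases hcase : ∃ i, w i a₀ + ∑ j, w i (a₀.succAbove j) * c j ≠ 0
    · obtain ⟨i, hi⟩ := hcase
      refine ⟨i, ?_⟩
      have hval : V.valuation (∑ a, w i a • b a) = V.valuation (b a₀) := by
        rw [step_sum b a₀ c (w i), Valuation.map_add_eq_of_lt_right]
        · rw [Algebra.smul_def, map_mul, val_const' hV.ov hi, one_mul]
        · rw [Algebra.smul_def, map_mul, val_const' hV.ov hi, one_mul]
          exact val_sum_lt hV.ov b' hb0 hlt _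
      have hle : Submodule.span k (Set.range b) ≤ leV hV.ov (∑ a, w i a • b a) := by
        rw [Submodule.span_le]
        rintro _ ⟨a, rfl⟩
        rw [SetLike.mem_coe, mem_leV, hval]
        exact hmax a
      rw [inf_eq_left.2 hle, finrank_span_eq_card hlin, Fintype.card_fin]
      exact Nat.le_add_right _ _
    · push Not at hcase
      set C' : Set k := C ∪ Set.range c with hC'
      have hC'fin : C'.Finite := hC.union (Set.finite_range c)
      have himg : algebraMap k K '' C' = algebraMap k K '' C ∪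
          Set.range fun j => algebraMap k K (c j) := by
        rw [hC', Set.image_union, ← Set.range_comp]
        rfl
      obtain ⟨z, hz, hz0, hz1⟩ := hz
      have hCr : ∀ a ∈ algebraMap k K '' C, a ∈ (algebraMap k K).range := by
        rintro _ ⟨a, _, rfl⟩
        exact ⟨a, rfl⟩
      have hrk' : rk k₁ (algebraMap k K '' C') + 1 ≤ rk k₁ (algebraMap k K '' C) + n := by
        rw [himg]
        refine le_trans ((rk_residues hV.ov (k₁ := k₁) (X := X) hCr hc fun j =>
          div_mem_cl (hb _) (hb _)).2 z hz hz0 hz1) ?_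
        exact add_le_add le_rfl hX
      have hcl : cl k₁ (algebraMap k K '' C ∪ X) ⊆ cl k₁ (algebraMap k K '' C' ∪ X) :=
        cl_mono (Set.union_subset_union_left _ (Set.image_mono Set.subset_union_left))
      have hccl : ∀ j, algebraMap k K (c j) ∈ cl k₁ (algebraMap k K '' C' ∪ X) := fun j =>
        subset_cl _ (Or.inl ⟨c j, Or.inr ⟨j, rfl⟩, rfl⟩)
      have hb'cl : ∀ j, b' j ∈ cl k₁ (algebraMap k K '' C' ∪ X) := by
        intro j
        rw [hb']
        simp only [Algebra.smul_def]
        exact sub_mem_cl (hcl (hb _)) (mul_mem_cl (hccl j) (hcl (hb _)))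
      -- the new coordinates
      set w' : Fin n → Fin m → k := fun i j => w i (a₀.succAbove j) with hw'
      have hwcl : rk k₁ (algebraMap k K '' (C ∪ {x | ∃ i a, x = w i a})) ≤
          rk k₁ (algebraMap k K '' (C' ∪ {x | ∃ i a, x = w' i a})) := by
        refine rk_le_of_subset_cl ?_
        rintro _ ⟨x, hx | ⟨i, a, rfl⟩, rfl⟩
        · exact subset_cl _ ⟨x, Or.inl (Or.inl hx), rfl⟩
        · rcases Fin.eq_self_or_eq_succAbove a₀ a with rfl | ⟨j, rfl⟩
          · have h1 : w i a = -∑ j, w i (a.succAbove j) * c j := by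
              rw [eq_neg_iff_add_eq_zero]
              exact hcase i
            rw [h1, map_neg, map_sum]
            refine neg_mem_cl (sum_mem_cl _ _ fun j _ => ?_)
            rw [map_mul]
            exact mul_mem_cl (subset_cl _ ⟨_, Or.inr ⟨i, j, rfl⟩, rfl⟩)
              (subset_cl _ ⟨_, Or.inl (Or.inr ⟨j, rfl⟩), rfl⟩)
          · exact subset_cl _ ⟨_, Or.inr ⟨i, j, rfl⟩, rfl⟩
      have hfinC : rk k₁ (algebraMap k K '' C) ≠ ⊤ := ne_top_of_le_ne_top
        (by simpa using (hC.image (algebraMap k K))) (rk_le_encard _)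
      have hfinC' : rk k₁ (algebraMap k K '' C') ≠ ⊤ := ne_top_of_le_ne_top
        (by simpa using (hC'fin.image (algebraMap k K))) (rk_le_encard _)
      have hwfin : {x | ∃ i a, x = w' i a}.Finite := by
        rw [coords_eq_range]
        exact Set.finite_range _
      have hwcard : ({x | ∃ i a, x = w' i a} : Set k).encard ≤ ((n * m : ℕ) : ℕ∞) :=
        encard_coords_le w'
      have hupper : rk k₁ (algebraMap k K '' (C' ∪ {x | ∃ i a, x = w' i a})) ≤
          rk k₁ (algebraMap k K '' C') + ((n * m : ℕ) : ℕ∞) := by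
        rw [Set.image_union]
        refine (rk_union_le' _ _).trans (add_le_add le_rfl ?_)
        exact (Set.encard_image_le _ _).trans hwcard
      -- numerics
      obtain ⟨r, hr⟩ := ENat.ne_top_iff_exists.1 hfinC
      obtain ⟨r', hr'⟩ := ENat.ne_top_iff_exists.1 hfinC'
      have hfinW : rk k₁ (algebraMap k K '' (C' ∪ {x | ∃ i a, x = w' i a})) ≠ ⊤ := by
        refine ne_top_of_le_ne_top ?_ hupper
        rw [← hr']
        exact_mod_cast ENat.natCast_ne_top (r' + n * m)
      obtain ⟨q, hq⟩ := ENat.ne_top_iff_exists.1 hfinW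
      have h1 : n * (m + 1) + r ≤ q + d := by
        have := hrk.trans (add_le_add hwcl le_rfl)
        rw [← hr, ← hq] at this
        exact_mod_cast this
      have h2 : r' + 1 ≤ r + n := by
        rw [← hr, ← hr'] at hrk'
        exact_mod_cast hrk'
      have h3 : q ≤ r' + n * m := by
        rw [← hr', ← hq] at hupper
        exact_mod_cast hupper
      rcases d with _ | d
      · exfalso
        nlinarith
      · have h4 : ((n * m : ℕ) : ℕ∞) + rk k₁ (algebraMap k K '' C') ≤
            rk k₁ (algebraMap k K '' (C' ∪ {x | ∃ i a, x = w' i a})) + d := by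
          rw [← hr', ← hq]
          have : n * m + r' ≤ q + d := by nlinarith
          exact_mod_cast this
        obtain ⟨i, hi⟩ := ih d C' b' w' hC'fin hb'cl ⟨z, hcl hz, hz0, hz1⟩ hlin' h4
        refine ⟨i, ?_⟩
        have hsum : ∑ a, w i a • b a = ∑ j, w' i j • b' j := by
          rw [step_sum b a₀ c (w i), hcase i, zero_smul, add_zero]
        rw [hsum]
        have hle : (Submodule.span k (Set.range b') ⊓ leV hV.ov (∑ j, w' i j • b' j) :
            Submodule k K) ≤ Submodule.span k (Set.range b) ⊓ leV hV.ov (∑ j, w' i j • b' j) :=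
          inf_le_inf_right _ hspanle
        have : FiniteDimensional k (Submodule.span k (Set.range b) ⊓
            leV hV.ov (∑ j, w' i j • b' j) : Submodule k K) :=
          Submodule.finiteDimensional_inf_left _ _
        have := Submodule.finrank_mono hle
        omega

/-- THE CHAIN LEMMA. For `u` generic and every `V`: some `U i₀` is minimal, and among the
`U i - lam i • U i₀` there is one, `l`, such that at most `n + 1` values of `S` are smaller than
the value of `l`. -/
theorem chain (hV : ZDim k V) {n : ℕ} (hn : 0 < n) {X : Set K} (hX : X.encard ≤ n)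
    {s : ℕ} (b : Fin s → K) (hb : ∀ a, b a ∈ cl k₁ X) (hlin : LinearIndependent k b)
    (hs : 0 < s) (u : Fin (n + 1) → Fin s → k)
    (hu : AlgebraicIndependent k₁ (fun p : Fin (n + 1) × Fin s => u p.1 p.2)) :
    ∃ (i₀ : Fin (n + 1)) (lam : Fin (n + 1) → k),
      (∀ f ∈ Submodule.span k (Set.range b),
        V.valuation f ≤ V.valuation (∑ a, u i₀ a • b a)) ∧
      (∑ a, u i₀ a • b a ≠ 0) ∧
      (∀ i, i ≠ i₀ → V.valuation ((∑ a, u i a • b a) - lam i • ∑ a, u i₀ a • b a) <
        V.valuation (∑ a, u i₀ a • b a)) ∧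
      ∃ i, i ≠ i₀ ∧ s ≤ Module.finrank k (Submodule.span k (Set.range b) ⊓
        leV hV.ov ((∑ a, u i a • b a) - lam i • ∑ a, u i₀ a • b a) : Submodule k K) +
          (n + 1) := by
  obtain ⟨m, rfl⟩ : ∃ m, s = m + 1 := ⟨s - 1, by omega⟩
  obtain ⟨a₀, c, hmax, hb0, hc, hlt, hlin'⟩ := step_basis hV b hlin
  set b' : Fin m → K := fun j => b (a₀.succAbove j) - c j • b a₀ with hb'
  set φ := algebraMap k K with hφ
  set C₁ : Set k := Set.range c with hC₁
  have himg1 : φ '' C₁ = Set.range fun j => φ (c j) := by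
    rw [hC₁, ← Set.range_comp]
    rfl
  have hrk1 : rk k₁ (φ '' C₁) ≤ n := by
    have h1 := (rk_residues hV.ov (k₁ := k₁) (C := ∅) (X := X) (by simp) hc fun j =>
      div_mem_cl (by rw [Set.empty_union]; exact hb _) (by rw [Set.empty_union]; exact hb _)).1
    rw [Set.empty_union] at h1
    rw [himg1]
    refine h1.trans ?_
    have h2 : rk k₁ (∅ : Set K) = 0 := by
      have := rk_le_encard (k₁ := k₁) (∅ : Set K)
      rw [Set.encard_empty] at this
      exact le_antisymm this zero_le
    rw [h2, zero_add]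
    exact hX
  set v : Fin (n + 1) → k := fun i => u i a₀ + ∑ j, u i (a₀.succAbove j) * c j with hv
  -- the rank of the coordinates of `u`
  have hrku : (((n + 1) * (m + 1) : ℕ) : ℕ∞) ≤ rk k₁ (φ '' {x | ∃ i a, x = u i a}) := by
    have h1 : AlgebraicIndependent k₁ (fun p : Fin (n + 1) × Fin (m + 1) => φ (u p.1 p.2)) :=
      hu.map' (f := IsScalarTower.toAlgHom k₁ k K) (algebraMap k K).injective
    have h2 := card_le_rk h1 (X := φ '' {x | ∃ i a, x = u i a}) (fun p => ⟨_, by
      rw [Set.mem_ofPred_eq]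
      exact ⟨p.1, p.2, rfl⟩, rfl⟩)
    rwa [ENat.card_eq_coe_fintype_card, Fintype.card_prod, Fintype.card_fin,
      Fintype.card_fin] at h2
  obtain ⟨i₀, hi₀⟩ : ∃ i, v i ≠ 0 := by
    by_contra hcon
    push Not at hcon
    set u' : Fin (n + 1) → Fin m → k := fun i j => u i (a₀.succAbove j) with hu'
    have h1 : rk k₁ (φ '' {x | ∃ i a, x = u i a}) ≤ rk k₁ (φ '' C₁ ∪ φ '' {x | ∃ i a, x = u' i a})
        := by
      refine rk_le_of_subset_cl ?_
      rintro _ ⟨x, hx, rfl⟩
      rw [Set.mem_ofPred_eq] at hx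
      obtain ⟨i, a, rfl⟩ := hx
      rcases Fin.eq_self_or_eq_succAbove a₀ a with rfl | ⟨j, rfl⟩
      · have h2 : u i a = -∑ j, u i (a.succAbove j) * c j := by
          rw [eq_neg_iff_add_eq_zero]
          exact hcon i
        rw [h2, map_neg, map_sum]
        refine neg_mem_cl (sum_mem_cl _ _ fun j _ => ?_)
        rw [map_mul]
        exact mul_mem_cl (subset_cl _ (Or.inr ⟨_, by
          rw [Set.mem_ofPred_eq]; exact ⟨i, j, rfl⟩, rfl⟩))
          (subset_cl _ (Or.inl ⟨_, ⟨j, rfl⟩, rfl⟩))
      · exact subset_cl _ (Or.inr ⟨_, by rw [Set.mem_ofPred_eq]; exact ⟨i, j, rfl⟩, rfl⟩)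
    have h3 : rk k₁ (φ '' C₁ ∪ φ '' {x | ∃ i a, x = u' i a}) ≤
        (n : ℕ∞) + (((n + 1) * m : ℕ) : ℕ∞) :=
      (rk_union_le' _ _).trans (add_le_add hrk1 ((Set.encard_image_le _ _).trans
        (encard_coords_le u')))
    have h4 := (hrku.trans h1).trans h3
    have h5 : (n + 1) * (m + 1) ≤ n + (n + 1) * m := by exact_mod_cast h4
    nlinarith
  -- values of the `U i`
  have hU : ∀ i, ∑ a, u i a • b a = (∑ j, u i (a₀.succAbove j) • b' j) + v i • b a₀ := fun i =>
    step_sum b a₀ c (u i)
  have hval0 : V.valuation (∑ a, u i₀ a • b a) = V.valuation (b a₀) := by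
    rw [hU, Valuation.map_add_eq_of_lt_right]
    · rw [Algebra.smul_def, map_mul, val_const' hV.ov hi₀, one_mul]
    · rw [Algebra.smul_def, map_mul, val_const' hV.ov hi₀, one_mul]
      exact val_sum_lt hV.ov b' hb0 hlt _
  set lam : Fin (n + 1) → k := fun i => v i / v i₀ with hlam
  have hl : ∀ i, (∑ a, u i a • b a) - lam i • ∑ a, u i₀ a • b a =
      ∑ j, (u i (a₀.succAbove j) - lam i * u i₀ (a₀.succAbove j)) • b' j := by
    intro i
    have h1 : lam i * v i₀ = v i := by rw [hlam]; exact div_mul_cancel₀ _ hi₀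
    rw [hU i, hU i₀, smul_add, smul_smul, h1, Finset.smul_sum]
    simp only [sub_smul, Finset.sum_sub_distrib, smul_smul]
    ring
  refine ⟨i₀, lam, ?_, ?_, ?_, ?_⟩
  · intro f hf
    rw [hval0]
    have h1 : Submodule.span k (Set.range b) ≤ leV hV.ov (b a₀) := by
      rw [Submodule.span_le]
      rintro _ ⟨a, rfl⟩
      rw [SetLike.mem_coe, mem_leV]
      exact hmax a
    exact mem_leV.1 (h1 hf)
  · rw [← Valuation.ne_zero_iff V.valuation, hval0, Valuation.ne_zero_iff]
    exact hb0
  · intro i _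
    rw [hl i, hval0]
    exact val_sum_lt hV.ov b' hb0 hlt _
  · -- the induction
    set w : Fin n → Fin m → k := fun i j =>
      u (i₀.succAbove i) (a₀.succAbove j) - lam (i₀.succAbove i) * u i₀ (a₀.succAbove j) with hw
    rcases Nat.eq_zero_or_pos m with rfl | hm
    · exact ⟨i₀.succAbove ⟨0, hn⟩, Fin.succAbove_ne _ _, by omega⟩
    set C : Set k := C₁ ∪ (Set.range (u i₀) ∪ Set.range fun i => lam (i₀.succAbove i)) with hC
    have hCfin : C.Finite := (Set.finite_range c).union
      ((Set.finite_range _).union (Set.finite_range _))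
    have hccl : ∀ j, φ (c j) ∈ cl k₁ (φ '' C ∪ X) := fun j =>
      subset_cl _ (Or.inl ⟨c j, Or.inl ⟨j, rfl⟩, rfl⟩)
    have hbcl : ∀ a, b a ∈ cl k₁ (φ '' C ∪ X) := fun a =>
      cl_mono Set.subset_union_right (hb a)
    have hb'cl : ∀ j, b' j ∈ cl k₁ (φ '' C ∪ X) := by
      intro j
      rw [hb']
      simp only [Algebra.smul_def]
      exact sub_mem_cl (hbcl _) (mul_mem_cl (hccl j) (hbcl _))
    have hb'0 : b' ⟨0, hm⟩ ≠ 0 := hlin'.ne_zero _
    have hz : ∃ z ∈ cl k₁ (φ '' C ∪ X), z ≠ 0 ∧ V.valuation z < 1 := by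
      refine ⟨b' ⟨0, hm⟩ / b a₀, div_mem_cl (hb'cl _) (hbcl _), div_ne_zero hb'0 hb0, ?_⟩
      rw [map_div₀]
      exact (div_lt_one₀ (zero_lt_iff.2 ((Valuation.ne_zero_iff _).2 hb0))).2 (hlt _)
    have hrkC : rk k₁ (φ '' C) ≤ ((n + (m + 1) + n : ℕ) : ℕ∞) := by
      have h1 : φ '' C = φ '' C₁ ∪ (φ '' Set.range (u i₀) ∪
          φ '' Set.range fun i => lam (i₀.succAbove i)) := by
        rw [hC, Set.image_union, Set.image_union]
      rw [h1]
      refine (rk_union_le' _ _).trans ?_
      have h2 : (φ '' Set.range (u i₀)).encard ≤ ((m + 1 : ℕ) : ℕ∞) := by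
        refine (Set.encard_image_le _ _).trans ?_
        rw [← Set.image_univ]
        refine (Set.encard_image_le _ _).trans ?_
        rw [Set.encard_univ, ENat.card_eq_coe_fintype_card, Fintype.card_fin]
      have h3 : (φ '' Set.range fun i => lam (i₀.succAbove i)).encard ≤ (n : ℕ∞) := by
        refine (Set.encard_image_le _ _).trans ?_
        rw [← Set.image_univ]
        refine (Set.encard_image_le _ _).trans ?_
        rw [Set.encard_univ, ENat.card_eq_coe_fintype_card, Fintype.card_fin]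
      have h4 := (Set.encard_union_le (φ '' Set.range (u i₀))
        (φ '' Set.range fun i => lam (i₀.succAbove i))).trans (add_le_add h2 h3)
      refine (add_le_add hrk1 h4).trans (le_of_eq ?_)
      push_cast
      ring
    have hrku2 : rk k₁ (φ '' {x | ∃ i a, x = u i a}) ≤
        rk k₁ (φ '' (C ∪ {x | ∃ i a, x = w i a})) := by
      refine rk_le_of_subset_cl ?_
      have hcC : ∀ j, φ (c j) ∈ cl k₁ (φ '' (C ∪ {x | ∃ i a, x = w i a})) := fun j =>
        subset_cl _ ⟨_, Or.inl (Or.inl ⟨j, rfl⟩), rfl⟩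
      have huC : ∀ a, φ (u i₀ a) ∈ cl k₁ (φ '' (C ∪ {x | ∃ i a, x = w i a})) := fun a =>
        subset_cl _ ⟨_, Or.inl (Or.inr (Or.inl ⟨a, rfl⟩)), rfl⟩
      have hlC : ∀ i, φ (lam (i₀.succAbove i)) ∈
          cl k₁ (φ '' (C ∪ {x | ∃ i a, x = w i a})) := fun i =>
        subset_cl _ ⟨_, Or.inl (Or.inr (Or.inr ⟨i, rfl⟩)), rfl⟩
      have hwC : ∀ i j, φ (w i j) ∈ cl k₁ (φ '' (C ∪ {x | ∃ i a, x = w i a})) := fun i j =>
        subset_cl _ ⟨_, Or.inr (by rw [Set.mem_ofPred_eq]; exact ⟨i, j, rfl⟩), rfl⟩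
      have hvC : φ (v i₀) ∈ cl k₁ (φ '' (C ∪ {x | ∃ i a, x = w i a})) := by
        rw [hv]
        simp only [map_add, map_sum, map_mul]
        exact add_mem_cl (huC _) (sum_mem_cl _ _ fun j _ => mul_mem_cl (huC _) (hcC _))
      rintro _ ⟨x, hx, rfl⟩
      rw [Set.mem_ofPred_eq] at hx
      obtain ⟨i, a, rfl⟩ := hx
      rcases Fin.eq_self_or_eq_succAbove i₀ i with rfl | ⟨i, rfl⟩
      · exact huC a
      · have hs : ∀ j, φ (u (i₀.succAbove i) (a₀.succAbove j)) ∈
            cl k₁ (φ '' (C ∪ {x | ∃ i a, x = w i a})) := by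
          intro j
          have h1 : u (i₀.succAbove i) (a₀.succAbove j) = w i j +
              lam (i₀.succAbove i) * u i₀ (a₀.succAbove j) := by
            rw [hw]
            ring
          rw [h1, map_add, map_mul]
          exact add_mem_cl (hwC i j) (mul_mem_cl (hlC i) (huC _))
        rcases Fin.eq_self_or_eq_succAbove a₀ a with rfl | ⟨j, rfl⟩
        · have h1 : u (i₀.succAbove i) a = lam (i₀.succAbove i) * v i₀ -
              ∑ j, u (i₀.succAbove i) (a.succAbove j) * c j := by
            have h2 : lam (i₀.succAbove i) * v i₀ = v (i₀.succAbove i) := by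
              rw [hlam]; exact div_mul_cancel₀ _ hi₀
            rw [h2, hv]
            ring
          rw [h1, map_sub, map_mul, map_sum]
          refine sub_mem_cl (mul_mem_cl (hlC i) hvC) (sum_mem_cl _ _ fun j _ => ?_)
          rw [map_mul]
          exact mul_mem_cl (hs j) (hcC j)
        · exact hs j
    have hfinal : ((n * m : ℕ) : ℕ∞) + rk k₁ (φ '' C) ≤
        rk k₁ (φ '' (C ∪ {x | ∃ i a, x = w i a})) + (n : ℕ) := by
      refine le_trans (add_le_add le_rfl hrkC) ?_
      refine le_trans ?_ (add_le_add (hrku.trans hrku2) le_rfl)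
      have h1 : n * m + (n + (m + 1) + n) ≤ (n + 1) * (m + 1) + n := by
        have : (n + 1) * (m + 1) = n * m + n + m + 1 := by ring
        omega
      exact_mod_cast h1
    obtain ⟨i, hi⟩ := chain_aux hV hn hX m n C b' w hCfin hb'cl hz hlin' hfinal
    refine ⟨i₀.succAbove i, Fin.succAbove_ne _ _, ?_⟩
    rw [hl (i₀.succAbove i)]
    have hspanle : Submodule.span k (Set.range b') ≤ Submodule.span k (Set.range b) := by
      rw [Submodule.span_le]
      rintro _ ⟨j, rfl⟩
      exact Submodule.sub_mem _ (Submodule.subset_span ⟨_, rfl⟩)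
        (Submodule.smul_mem _ _ (Submodule.subset_span ⟨_, rfl⟩))
    have : FiniteDimensional k (Submodule.span k (Set.range b)) :=
      FiniteDimensional.span_of_finite k (Set.finite_range b)
    have : FiniteDimensional k (Submodule.span k (Set.range b) ⊓
        leV hV.ov (∑ j, w i j • b' j) : Submodule k K) :=
      Submodule.finiteDimensional_inf_left _ _
    have h2 := Submodule.finrank_mono (inf_le_inf_right (leV hV.ov (∑ j, w i j • b' j)) hspanle)
    have h3 : (∑ j, (u (i₀.succAbove i) (a₀.succAbove j) - lam (i₀.succAbove i) *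
        u i₀ (a₀.succAbove j)) • b' j) = ∑ j, w i j • b' j := rfl
    rw [h3]
    omega

end Pool.Agent.TGCh
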